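import Pool.Agent.Run7.h968.TN.Defs

/-!
# Residually finite groups of cost `> 1` with an element of infinite order: Tarski number at most 5

Same proof as for `TarskiLe G 6`, with the sets `{1, u}`, `{1, h 0, h 1}`, `u` of infinite order,
and minimal spanning edge sets among those which contain all the edges labelled `u`.
-/

set_option autoImplicit false

open MeasureTheory

namespace Pool.Agent.Run7.h968.TN

/-- The Hall condition for the pair of sets `{1, u}`, `{1, h 0, h 1}` fails. -/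
def Bad5 {G : Type} [Group G] (u : G) (h : Fin 2 → G) : Prop :=
  ∃ A₁ A₂ V : Finset G, V.card < A₁.card + A₂.card ∧
    (∀ a ∈ A₁, a ∈ V ∧ u * a ∈ V) ∧ (∀ a ∈ A₂, a ∈ V ∧ h 0 * a ∈ V ∧ h 1 * a ∈ V)

/-- infinite order -/
def InfOrd {G : Type} [Group G] (u : G) : Prop := ∀ n : ℕ, 0 < n → u ^ n ≠ 1

/-- (1') a finite multigraph with more edges than vertices, with a set `p` of edges which carries no
nonzero cycle: some edge outside `p` is not a bridge. -/
def P_graph5 : Prop := ∀ (V E : Type) (vs : Finset V) (es : Finset E) (s t : E → V) (p : E → Prop),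
  (∀ e ∈ es, s e ∈ vs) → (∀ e ∈ es, t e ∈ vs) → vs.card < es.card →
  (∀ c : E → ℚ, (∀ e, c e ≠ 0 → e ∈ es ∧ p e) →
    (∀ φ : V → ℚ, ∑ e ∈ es, c e * (φ (t e) - φ (s e)) = 0) → ∀ e, c e = 0) →
  ∃ e ∈ es, ¬ p e ∧ Relation.EqvGen (fun a b => ∃ e' ∈ es, e' ≠ e ∧ s e' = a ∧ t e' = b) (s e) (t e)

/-- (2') restriction to a subgroup -/
def P_restr5 : Prop := ∀ (G : Type) [Group G] (H : Subgroup G) (u : H) (h : Fin 2 → H),
  Bad5 (u : G) (fun i => (h i : G)) → Bad5 u h

/-- (3') Hall and Schroeder-Bernstein -/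
def P_hall5 : Prop := ∀ (G : Type) [Group G] (u : G) (h : Fin 2 → G), ¬ Bad5 u h → TarskiLe G 5

/-- (5') In a minimal spanning set of edges among those which contain all edges with label `u`
(`u = h iu` of infinite order). -/
def P_min5 : Prop := ∀ (K : Type) [Group K] (N : Subgroup K) [N.Normal] (I : Type) [DecidableEq I]
  (h : I → K) (iu : I) (F : Finset ((K ⧸ N) × I)), InfOrd (h iu) → Spans N h F →
  (∀ y : K ⧸ N, (y, iu) ∈ F) →
  (∀ F' : Finset ((K ⧸ N) × I), F' ⊆ F → F' ≠ F → (∀ y : K ⧸ N, (y, iu) ∈ F') → ¬ Spans N h F') →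
  ∀ (i : Fin 2 → I), Function.Injective i → (∀ l, i l ≠ iu) → ∀ (A₁ A₂ V : Finset K),
    (∀ a ∈ A₁, a ∈ V ∧ h iu * a ∈ V) →
    (∀ a ∈ A₂, a ∈ V ∧ h (i 0) * a ∈ V ∧ h (i 1) * a ∈ V) →
    (∀ a ∈ A₁, ∀ b ∈ A₁, a⁻¹ * b ∈ N → a = b) → (∀ a ∈ A₂, ∀ b ∈ A₂, a⁻¹ * b ∈ N → a = b) →
    ∀ x : K,
      A₁.card +
      (Nat.card {a : K // a ∈ A₂ ∧ ((QuotientGroup.mk (a * x) : K ⧸ N), i 0) ∈ F} +
      Nat.card {a : K // a ∈ A₂ ∧ ((QuotientGroup.mk (a * x) : K ⧸ N), i 1) ∈ F}) ≤ V.card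

/-- (6') The averaging. -/
def P_count5 : Prop := ∀ (K : Type) [Group K] (N : Subgroup K) [N.Normal] [Fintype (K ⧸ N)]
  [DecidableEq (K ⧸ N)] (I : Type) [DecidableEq I]
  (F : Finset ((K ⧸ N) × I)) (i : Fin 2 → I) (A₁ A₂ V : Finset K),
    V.card < A₁.card + A₂.card →
    (∀ x : K,
      A₁.card +
      (Nat.card {a : K // a ∈ A₂ ∧ ((QuotientGroup.mk (a * x) : K ⧸ N), i 0) ∈ F} +
      Nat.card {a : K // a ∈ A₂ ∧ ((QuotientGroup.mk (a * x) : K ⧸ N), i 1) ∈ F}) ≤ V.card) →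
    ((Finset.univ : Finset (K ⧸ N)).filter (fun y => (y, i 0) ∈ F)).card +
    ((Finset.univ : Finset (K ⧸ N)).filter (fun y => (y, i 1) ∈ F)).card ≤
      Fintype.card (K ⧸ N)

/-- (8') The step. -/
def P_step5 : Prop := ∀ (K : Type) [Group K], RF K → ∀ (u : K), InfOrd u →
  ∀ (q : ℕ) (h : Fin q → Fin 2 → K),
  Subgroup.closure (Set.range (fun p : Fin q × Fin 2 => h p.1 p.2)) = ⊤ →
  (∀ j, Bad5 u (h j)) →
  ∃ (N : Subgroup K) (T : Finset K), N.index ≠ 0 ∧
    Subgroup.closure (T : Set K) = N ∧ T.card ≤ (q + 1) * N.index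

/-- (9') The iteration (from `P_step5`, `P_restr5`): a subgroup of finite index contains a power
`u ^ m`, `m > 0`, of infinite order. -/
def P_iter5 : Prop := ∀ (G : Type) [Group G], Group.FG G → RF G → PosRG G → ∀ u : G, InfOrd u →
  ∃ (v : G) (h : Fin 2 → G), InfOrd v ∧ ¬ Bad5 v h

/-- (11) lower bound for torsion groups, from the starting library
(`Pool.Agent.W402.CS.lower : Pool.Agent.W336.CS.S_lower`). -/
def P_low6 : Prop := ∀ (G : Type) [Group G], Monoid.IsTorsion G → ¬ TarskiLe G 5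

/-- (12) groups with no free subgroup of rank two do not have a paradoxical decomposition with four
pieces (and no group has one with fewer): ping-pong. -/
def P_low5 : Prop := ∀ (G : Type) [Group G], TarskiLe G 4 →
  ∃ f : FreeGroup (Fin 2) →* G, Function.Injective f

/-- (13) a free subgroup of rank two gives four pieces (`SL`-type textbook decomposition of the free
group, transported to `G` by coset representatives). -/
def P_up4 : Prop := ∀ (G : Type) [Group G], (∃ f : FreeGroup (Fin 2) →* G, Function.Injective f) →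
  TarskiLe G 4

end Pool.Agent.Run7.h968.TN
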