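import Pool.Agent.Run7.h968.TN.Defs
import Pool.Agent.W336.CS.Chain

set_option autoImplicit false

open MeasureTheory

namespace Pool.Agent.Run7.h968.TN

/-- (10) A subgroup of index `k` generated by `T` gives an action of `G` of cost at most
`1 + |T| / k`. -/
def P_cost : Prop := ∀ (G : Type) [Group G] [Countable G] (H : Subgroup G) (T : Finset G),
  H.index ≠ 0 → Subgroup.closure (T : Set G) = H →
  Pool.Agent.W336.CS.CostLe G (1 + (T.card : ENNReal) / (H.index : ENNReal))

end Pool.Agent.Run7.h968.TN
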