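import Pool.Agent.Run7.h968.TN.Cost
import Pool.Agent.Run7.h968.TN.Defs5

set_option autoImplicit false
set_option linter.unusedVariables false
set_option linter.deprecated false

open MeasureTheory

namespace Pool.Agent.Run7.h968.TN

/-- The group `G` has cost larger than one (verbatim the hypothesis of the frozen statement). -/
def CostGtOne (G : Type) [Group G] : Prop :=
  ∃ ε : ENNReal, 0 < ε ∧
      ∀ (X : Type) [MeasurableSpace X] [StandardBorelSpace X] [MulAction G X]
        (μ : Measure X) [IsProbabilityMeasure μ],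
        (∀ g : G, MeasurePreserving (fun x : X => g • x) μ μ) →
        (∀ g : G, g ≠ 1 → μ {x : X | g • x = x} = 0) →
        ∀ (s : ℕ → G) (A : ℕ → Set X), (∀ i, MeasurableSet (A i)) →
          (∀ᵐ x ∂μ, ∀ h : G, Relation.ReflTransGen
              (fun y z : X => ∃ i, (y ∈ A i ∧ z = s i • y) ∨ (z ∈ A i ∧ y = s i • z))
              x (h • x)) →
          1 + ε ≤ ∑' i, μ (A i)

theorem posRG_of_cost (hc : P_cost) (G : Type) [Group G] [Countable G] (h : CostGtOne G) :
    PosRG G := by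
  obtain ⟨ε, hε, h⟩ := h
  obtain ⟨e, he0, he⟩ : ∃ e : ℝ, 0 < e ∧ ENNReal.ofReal e ≤ ε := by
    rcases eq_or_ne ε ⊤ with rfl | hne
    · exact ⟨1, one_pos, le_top⟩
    · exact ⟨ε.toReal, ENNReal.toReal_pos hε.ne' hne, by rw [ENNReal.ofReal_toReal hne]⟩
  refine ⟨e, he0, fun H T hH hT => ?_⟩
  obtain ⟨X, h1, h2, μ, h3, h4, h5, h6, A, s, h7, h8, h9⟩ := hc G H T hH hT
  have hfree : ∀ g : G, g ≠ 1 → μ {x : X | g • x = x} = 0 := by
    intro g hg
    have : ∀ᵐ x ∂μ, ¬ (g • x = x) := by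
      filter_upwards [h6] with x hx hgx
      exact hg (hx g hgx)
    simpa [ae_iff] using this
  have key := (h X μ h5 hfree s A h7 h8).trans h9
  have key2 : ENNReal.ofReal e ≤ (T.card : ENNReal) / (H.index : ENNReal) :=
    he.trans ((ENNReal.add_le_add_iff_left ENNReal.one_ne_top).1 key)
  have hk : (H.index : ENNReal) ≠ 0 := by exact_mod_cast hH
  have key3 : ENNReal.ofReal e * (H.index : ENNReal) ≤ (T.card : ENNReal) := by
    rwa [ENNReal.le_div_iff_mul_le (Or.inl hk) (Or.inl (ENNReal.natCast_ne_top _))] at key2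
  have key4 := ENNReal.toReal_mono (ENNReal.natCast_ne_top _) key3
  rw [ENNReal.toReal_mul, ENNReal.toReal_ofReal he0.le, ENNReal.toReal_natCast,
    ENNReal.toReal_natCast] at key4
  exact key4

theorem countable_of_fg (G : Type) [Group G] (h : Group.FG G) : Countable G := by
  obtain ⟨S, hS⟩ := (Group.fg_def.1 h)
  have : Function.Surjective (FreeGroup.lift (fun s : (S : Set G) => (s : G))) := by
    rw [FreeGroup.lift_surjective_iff_closure_range_eq_top]
    simpa using hS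
  exact this.countable

theorem mono {G : Type} [Group G] {C D : ℕ} (h : TarskiLe G C) (hCD : C ≤ D) : TarskiLe G D := by
  obtain ⟨k, P, t, S, h0, h1⟩ := h
  exact ⟨k, P, t, S, h0.trans hCD, h1⟩

/-- A paradoxical decomposition has at least four pieces. -/
theorem not_three (G : Type) [Group G] : ¬ TarskiLe G 3 := by
  classical
  rintro ⟨k, P, t, S, hk, h1, h2, h3⟩
  -- a half with at most one piece is impossible
  have half : ∀ Q : Finset (Fin k), (∀ x : G, ∃! i, i ∈ Q ∧ (t i)⁻¹ * x ∈ P i) →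
      (∃ i, i ∉ Q ∧ ∃ x, x ∈ P i) → 2 ≤ Q.card := by
    intro Q hQ hne
    by_contra hlt
    obtain ⟨i0, ⟨hi0, -⟩, -⟩ := hQ 1
    have hc : Q.card = 1 := by
      have : 0 < Q.card := Finset.card_pos.2 ⟨i0, hi0⟩
      omega
    have hQi : ∀ i ∈ Q, i = i0 := by
      intro i hi
      exact Finset.card_le_one.1 hc.le i hi i0 hi0
    have hall : ∀ y : G, y ∈ P i0 := by
      intro y
      obtain ⟨i, ⟨hi, hy⟩, -⟩ := hQ (t i0 * y)
      rw [hQi i hi] at hy
      simpa using hy
    obtain ⟨i, hi, x, hx⟩ := hne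
    have := (h1 x).unique hx (hall x)
    exact hi (this ▸ hi0)
  have hS : 2 ≤ S.card := by
    refine half S h2 ?_
    obtain ⟨i, ⟨hi, hx⟩, -⟩ := h3 1
    exact ⟨i, hi, _, hx⟩
  have hT : 2 ≤ (Finset.univ \ S).card := by
    refine half (Finset.univ \ S) ?_ ?_
    · intro x
      obtain ⟨i, hi, hu⟩ := h3 x
      refine ⟨i, by simpa using hi, ?_⟩
      intro j hj
      exact hu j (by simpa using hj)
    · obtain ⟨i, ⟨hi, hx⟩, -⟩ := h2 1
      exact ⟨i, by simpa using hi, _, hx⟩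
  have hsum : (Finset.univ \ S).card + S.card = k := by
    rw [Finset.card_sdiff_add_card_eq_card (Finset.subset_univ S)]
    simp
  omega

theorem assembly (hh : P_hall) (hi : P_iter) (hc : P_cost) (hh5 : P_hall5) (hi5 : P_iter5)
    (hl6 : P_low6) (hl5 : P_low5) (hu4 : P_up4)
    (G : Type) [Group G] (hfg : Group.FG G) (hrf : RF G) (h : CostGtOne G ∨ PosRG G) :
    TarskiLe G 6 ∧
    ((∃ u : G, ∀ n : ℕ, 0 < n → u ^ n ≠ 1) → TarskiLe G 5) ∧
    ((∀ g : G, ∃ n : ℕ, 0 < n ∧ g ^ n = 1) → ¬ TarskiLe G 5) ∧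
    (TarskiLe G 4 ↔ ∃ f : FreeGroup (Fin 2) →* G, Function.Injective f) ∧
    ¬ TarskiLe G 3 := by
  have := countable_of_fg G hfg
  have hp : PosRG G := by
    rcases h with h | h
    · exact posRG_of_cost hc G h
    · exact h
  refine ⟨?_, ?_, fun ht => hl6 G (fun g => isOfFinOrder_iff_pow_eq_one.2 (ht g)),
    ⟨hl5 G, hu4 G⟩, not_three G⟩
  · obtain ⟨a, ha⟩ := hi G hfg hrf hp
    exact hh G a ha
  · rintro ⟨u, hu⟩
    obtain ⟨v, a, -, ha⟩ := hi5 G hfg hrf hp u hu
    exact hh5 G v a ha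

end Pool.Agent.Run7.h968.TN
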