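import Mathlib

/-!
# Tarski numbers of residually finite groups of cost larger than one: definitions and pieces

Theorem: a finitely generated residually finite group of cost `> 1` (or of positive rank gradient)
has Tarski number at most `6`.
-/

set_option autoImplicit false

open MeasureTheory

namespace Pool.Agent.Run7.h968.TN

/-- The Hall condition for the pair of sets `{1, h 0, h 1}`, `{1, h 2, h 3}` fails. -/
def Bad {G : Type} [Group G] (h : Fin 4 → G) : Prop :=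
  ∃ A₁ A₂ V : Finset G, V.card < A₁.card + A₂.card ∧
    (∀ a ∈ A₁, a ∈ V ∧ h 0 * a ∈ V ∧ h 1 * a ∈ V) ∧
    (∀ a ∈ A₂, a ∈ V ∧ h 2 * a ∈ V ∧ h 3 * a ∈ V)

/-- residual finiteness -/
def RF (G : Type) [Group G] : Prop :=
  ∀ g : G, g ≠ 1 → ∃ N : Subgroup G, N.Normal ∧ N.index ≠ 0 ∧ g ∉ N

/-- `G` has a (complete) paradoxical decomposition with at most `C` pieces. -/
def TarskiLe (G : Type) [Group G] (C : ℕ) : Prop :=
  ∃ (k : ℕ) (P : Fin k → Set G) (t : Fin k → G) (S : Finset (Fin k)),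
    k ≤ C ∧ (∀ x : G, ∃! i, x ∈ P i) ∧
    (∀ x : G, ∃! i, i ∈ S ∧ (t i)⁻¹ * x ∈ P i) ∧
    (∀ x : G, ∃! i, i ∉ S ∧ (t i)⁻¹ * x ∈ P i)

/-- Adjacency on `K` coming from a set `F` of edges of `K ⧸ N` with labels in `I`. -/
def adj {K : Type} [Group K] (N : Subgroup K) {I : Type} (h : I → K) (F : Finset ((K ⧸ N) × I))
    (a b : K) : Prop := ∃ i, ((QuotientGroup.mk a : K ⧸ N), i) ∈ F ∧ b = h i * a

/-- `F` connects all of `K` -/
def Spans {K : Type} [Group K] (N : Subgroup K) {I : Type} (h : I → K)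
    (F : Finset ((K ⧸ N) × I)) : Prop := ∀ a b : K, Relation.EqvGen (adj N h F) a b

/-- (1) a finite multigraph with more edges than vertices has an edge which is not a bridge. -/
def P_graph : Prop := ∀ (V E : Type) (vs : Finset V) (es : Finset E) (s t : E → V),
  (∀ e ∈ es, s e ∈ vs) → (∀ e ∈ es, t e ∈ vs) → vs.card < es.card →
  ∃ e ∈ es, Relation.EqvGen (fun a b => ∃ e' ∈ es, e' ≠ e ∧ s e' = a ∧ t e' = b) (s e) (t e)

/-- (2) Bad 4-tuples are bad in every subgroup which contains them (split the finite sets into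
right cosets of `H`). -/
def P_restr : Prop := ∀ (G : Type) [Group G] (H : Subgroup G) (h : Fin 4 → H),
  Bad (fun i => (h i : G)) → Bad h

/-- (3) Hall's marriage theorem and Schroeder-Bernstein. -/
def P_hall : Prop := ∀ (G : Type) [Group G] (h : Fin 4 → G), ¬ Bad h → TarskiLe G 6

/-- (4) Reidemeister-Schreier: a spanning set of edges of `K ⧸ N` gives generators of `N`. -/
def P_gens : Prop := ∀ (K : Type) [Group K] (N : Subgroup K) [N.Normal] (I : Type) (h : I → K)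
  (F : Finset ((K ⧸ N) × I)), Spans N h F →
  ∃ T : Finset K, Subgroup.closure (T : Set K) = N ∧ T.card ≤ F.card

/-- (5) In a minimal spanning set of edges, the edges with sources in `A₁ x` (labels `0,1`) and
in `A₂ x` (labels `2,3`) are at most as many as the vertices `V x`, for every `x`. -/
def P_min : Prop := ∀ (K : Type) [Group K] (N : Subgroup K) [N.Normal] (I : Type) [DecidableEq I]
  (h : I → K) (F : Finset ((K ⧸ N) × I)), Spans N h F →
  (∀ F' : Finset ((K ⧸ N) × I), F' ⊆ F → F' ≠ F → ¬ Spans N h F') →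
  ∀ (i : Fin 4 → I), Function.Injective i → ∀ (A₁ A₂ V : Finset K),
    (∀ a ∈ A₁, a ∈ V ∧ h (i 0) * a ∈ V ∧ h (i 1) * a ∈ V) →
    (∀ a ∈ A₂, a ∈ V ∧ h (i 2) * a ∈ V ∧ h (i 3) * a ∈ V) →
    (∀ a ∈ A₁, ∀ b ∈ A₁, a⁻¹ * b ∈ N → a = b) → (∀ a ∈ A₂, ∀ b ∈ A₂, a⁻¹ * b ∈ N → a = b) →
    ∀ x : K,
      Nat.card {a : K // a ∈ A₁ ∧ ((QuotientGroup.mk (a * x) : K ⧸ N), i 0) ∈ F} +
      Nat.card {a : K // a ∈ A₁ ∧ ((QuotientGroup.mk (a * x) : K ⧸ N), i 1) ∈ F} +
      (Nat.card {a : K // a ∈ A₂ ∧ ((QuotientGroup.mk (a * x) : K ⧸ N), i 2) ∈ F} +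
      Nat.card {a : K // a ∈ A₂ ∧ ((QuotientGroup.mk (a * x) : K ⧸ N), i 3) ∈ F}) ≤ V.card

/-- (6) The averaging: at most `3 |K ⧸ N|` edges of the four labels of a bad 4-tuple. -/
def P_count : Prop := ∀ (K : Type) [Group K] (N : Subgroup K) [N.Normal] [Fintype (K ⧸ N)]
  [DecidableEq (K ⧸ N)] (I : Type) [DecidableEq I]
  (F : Finset ((K ⧸ N) × I)) (i : Fin 4 → I) (A₁ A₂ V : Finset K),
    V.card < A₁.card + A₂.card →
    (∀ x : K,
      Nat.card {a : K // a ∈ A₁ ∧ ((QuotientGroup.mk (a * x) : K ⧸ N), i 0) ∈ F} +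
      Nat.card {a : K // a ∈ A₁ ∧ ((QuotientGroup.mk (a * x) : K ⧸ N), i 1) ∈ F} +
      (Nat.card {a : K // a ∈ A₂ ∧ ((QuotientGroup.mk (a * x) : K ⧸ N), i 2) ∈ F} +
      Nat.card {a : K // a ∈ A₂ ∧ ((QuotientGroup.mk (a * x) : K ⧸ N), i 3) ∈ F}) ≤ V.card) →
    ((Finset.univ : Finset (K ⧸ N)).filter (fun y => (y, i 0) ∈ F)).card +
    ((Finset.univ : Finset (K ⧸ N)).filter (fun y => (y, i 1) ∈ F)).card +
    (((Finset.univ : Finset (K ⧸ N)).filter (fun y => (y, i 2) ∈ F)).card +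
    ((Finset.univ : Finset (K ⧸ N)).filter (fun y => (y, i 3) ∈ F)).card) ≤
      3 * Fintype.card (K ⧸ N)

/-- (7) A residually finite group has a normal subgroup of finite index which meets a given finite
set in at most `1`. -/
def P_rf : Prop := ∀ (K : Type) [Group K], RF K → ∀ B : Finset K,
  ∃ N : Subgroup K, N.Normal ∧ N.index ≠ 0 ∧ ∀ b ∈ B, b ∈ N → b = 1

/-- (8) The step (from `P_min`, `P_count`, `P_gens`, `P_rf`). -/
def P_step : Prop := ∀ (K : Type) [Group K], RF K → ∀ (q : ℕ) (h : Fin q → Fin 4 → K),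
  Subgroup.closure (Set.range (fun p : Fin q × Fin 4 => h p.1 p.2)) = ⊤ →
  (∀ j, Bad (h j)) →
  ∃ (N : Subgroup K) (T : Finset K), N.index ≠ 0 ∧
    Subgroup.closure (T : Set K) = N ∧ T.card ≤ 3 * q * N.index

/-- positive rank gradient -/
def PosRG (G : Type) [Group G] : Prop := ∃ ε : ℝ, 0 < ε ∧ ∀ (H : Subgroup G) (T : Finset G),
  H.index ≠ 0 → Subgroup.closure (T : Set G) = H → ε * H.index ≤ T.card

/-- (9) The iteration (from `P_step`, `P_restr`). `G` is infinite (by `PosRG`) and residually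
finite, so has subgroups of arbitrarily large finite index; a ratio `q/[G:H]` decays by `7/8` in
every step as long as `q ≥ 6`. -/
def P_iter : Prop := ∀ (G : Type) [Group G], Group.FG G → RF G → PosRG G →
  ∃ h : Fin 4 → G, ¬ Bad h

end Pool.Agent.Run7.h968.TN
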