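import Pool.Agent.Run7.h968.TN.Rel

set_option autoImplicit false

open MeasureTheory

namespace Pool.Agent.Run7.h968.TN

open Pool.Agent.W336.CS Pool.Agent.Y111.RC

theorem t_end : P_end := by
  intro G _ _ M htie hF ε hε
  have hh : hull M = ⊤ := htie (hull M) (le_hull M) (fun g hg => tied_hull M hg)
  have hε2 : 0 < ε / 2 := ENNReal.half_pos hε.ne'
  have h1 := hF _ hε2
  have h2 := fam_hull M hε2
  have h3 := h1.trans h2 (Set.subset_union_right.trans Subgroup.subset_closure)
  rw [hh] at h3
  have h4 : (1 : ENNReal) + ε / 2 + ε / 2 = 1 + ε := by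
    rw [add_assoc, ENNReal.add_halves]
  rw [h4] at h3
  exact (h3.gen (fun x _ => Subgroup.subset_closure (Or.inr (Subgroup.mem_top x)))).cost

end Pool.Agent.Run7.h968.TN
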