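import Pool.Agent.Run7.h968.TN.Rel

set_option autoImplicit false
set_option linter.unusedVariables false

open MeasureTheory

namespace Pool.Agent.Run7.h968.TN

open Pool.Agent.W336.CS Pool.Agent.Y111.RC Pool.Agent.Q191.TR Pool.Agent.W246.TN

/-- generators of `closure T` inside `closure T` -/
theorem gens_in {G : Type} [Group G] (T : Finset G) :
    ∃ S : Finset (Subgroup.closure (T : Set G)),
      Subgroup.closure (S : Set (Subgroup.closure (T : Set G))) = ⊤ ∧
      ∀ x : Subgroup.closure (T : Set G), (x : G) ∈ T → x ∈ S := by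
  classical
  refine ⟨T.attach.image (fun x => ⟨x.1, Subgroup.subset_closure x.2⟩), ?_, ?_⟩
  · have h := Subgroup.closure_closure_coe_preimage (k := (T : Set G))
    rw [← h]
    congr 1
    ext x
    simp only [Finset.coe_image, Finset.coe_attach, Set.image_univ, Set.mem_range, Set.mem_preimage]
    constructor
    · rintro ⟨y, rfl⟩
      exact y.2
    · intro hx
      exact ⟨⟨x.1, hx⟩, rfl⟩
  · intro x hx
    simp only [Finset.mem_image, Finset.mem_attach, true_and]
    exact ⟨⟨x.1, hx⟩, rfl⟩

theorem parad6 (hfam : P_fam) (hend : P_end) {G : Type} [Group G] [Countable G]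
    (M : Subgroup G) (hM : (M : Set G).Infinite)
    (hloc : ∀ K : Subgroup G, K ≤ M → K.FG →
      Group.ResiduallyFinite K ∨ ∀ δ : ℝ, 0 < δ → ¬ RGpos K δ)
    (htie : ∀ K : Subgroup G, M ≤ K → (∀ g, Tied K g → g ∈ K) → K = ⊤)
    (ε : ENNReal) (hε : 0 < ε) (hcost : ¬ CostLe G (1 + ε)) : Parad G 6 := by
  classical
  by_contra hP
  by_cases hfg : ∃ K₀ : Finset G, (K₀ : Set G) ⊆ M ∧
      (Subgroup.closure (K₀ : Set G) : Set G).Infinite
  · obtain ⟨K₀, hK, hinf⟩ := hfg
    refine hcost (hend G M htie (hfam G M K₀ hK hinf ?_) ε hε)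
    intro T hT hTM δ hδ hrg
    have hle : Subgroup.closure (T : Set G) ≤ M := (Subgroup.closure_le M).2 hTM
    have : Group.ResiduallyFinite (Subgroup.closure (T : Set G)) :=
      (hloc _ hle ⟨T, rfl⟩).resolve_right (fun h => h δ hδ hrg)
    obtain ⟨S, hS, -⟩ := gens_in T
    exact hP (main6 (Subgroup.closure (T : Set G)).subtype
      (Subgroup.closure (T : Set G)).subtype_injective (MonoidHom.id _) Function.surjective_id
      S hS hδ hrg)
  · push Not at hfg
    refine hcost (amen2_cost M hM ?_ htie ε hε)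
    intro a ha b hb
    refine fol_of_finite ?_
    have h := hfg {a, b} (by
      intro x hx
      simp only [Finset.coe_insert, Finset.coe_singleton, Set.mem_insert_iff,
        Set.mem_singleton_iff] at hx
      rcases hx with rfl | rfl
      · exact ha
      · exact hb)

    simpa using h

theorem parad5 (hfam : P_fam) (hend : P_end) {G : Type} [Group G] [Countable G]
    (M : Subgroup G)
    (hloc : ∀ K : Subgroup G, K ≤ M → K.FG →
      Group.ResiduallyFinite K ∨ ∀ δ : ℝ, 0 < δ → ¬ RGpos K δ)
    (htie : ∀ K : Subgroup G, M ≤ K → (∀ g, Tied K g → g ∈ K) → K = ⊤)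
    (ε : ENNReal) (hε : 0 < ε) (hcost : ¬ CostLe G (1 + ε)) (u : G) (huM : u ∈ M)
    (hu : ¬ IsOfFinOrder u) : Parad G 5 := by
  classical
  by_contra hP
  have hK : (({u} : Finset G) : Set G) ⊆ M := by simpa using huM
  have hinf : (Subgroup.closure (({u} : Finset G) : Set G) : Set G).Infinite := by
    rw [Finset.coe_singleton, ← Subgroup.zpowers_eq_closure]
    exact infinite_zpowers.2 hu
  refine hcost (hend G M htie (hfam G M {u} hK hinf ?_) ε hε)
  intro T hT hTM δ hδ hrg
  have hle : Subgroup.closure (T : Set G) ≤ M := (Subgroup.closure_le M).2 hTM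
  have : Group.ResiduallyFinite (Subgroup.closure (T : Set G)) :=
    (hloc _ hle ⟨T, rfl⟩).resolve_right (fun h => h δ hδ hrg)
  obtain ⟨S, hS, -⟩ := gens_in T
  have huT : u ∈ Subgroup.closure (T : Set G) :=
    Subgroup.subset_closure (hT (Finset.mem_singleton_self u))
  refine hP (main5 (Subgroup.closure (T : Set G)).subtype
      (Subgroup.closure (T : Set G)).subtype_injective (MonoidHom.id _) Function.surjective_id
      S hS hδ hrg ⟨u, huT⟩ ?_)
  intro h
  exact hu ((Subgroup.closure (T : Set G)).subtype.isOfFinOrder h)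

/-- conjugation version of tied elements -/
theorem tied_of_conj {G : Type} [Group G] {K : Subgroup G} {g : G}
    (h : {u : G | u ∈ K ∧ g * u * g⁻¹ ∈ K}.Infinite) : Tied K g := by
  refine ⟨2, le_rfl, g * g, ?_⟩
  refine h.mono ?_
  rintro u ⟨hu, hg⟩
  refine ⟨hu, ?_⟩
  have : (u * g) ^ 2 * (g * g)⁻¹ = u * (g * u * g⁻¹) := by
    rw [pow_two]
    group
  rw [this]
  exact K.mul_mem hu hg

/-- infinite normal subgroups -/
theorem ties_of_normal {G : Type} [Group G] {M : Subgroup G} (hn : M.Normal)
    (hM : (M : Set G).Infinite) :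
    ∀ K : Subgroup G, M ≤ K → (∀ g, Tied K g → g ∈ K) → K = ⊤ := by
  intro K hK h
  rw [Subgroup.eq_top_iff']
  intro g
  refine h g (tied_of_conj (hM.mono ?_))
  intro u hu
  exact ⟨hK hu, hK (hn.conj_mem u hu g)⟩

end Pool.Agent.Run7.h968.TN
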