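import Pool.Agent.Run7.h968.TN.Main3a
import Pool.Agent.Run7.h968.TN.End
import Pool.Agent.Run7.h648.TN.Fam
import Pool.Agent.Run7.h300.TN_coind
import Pool.Agent.Run7.h382.TN.Abs
import Pool.Agent.Run7.h660.TN_rel

set_option autoImplicit false

open MeasureTheory

namespace Pool.Agent.Run7.h968.TN

open Pool.Agent.Y111.RC Pool.Agent.W246.TN Pool.Agent.Q191.TR

theorem t_rel' : P_rel := Pool.Agent.Run7.h660.TN.t_rel Run7.h300.TN.t_coind

theorem t_abs' : P_abs := Run7.h382.TN.t_abs Run7.h300.TN.t_coind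

theorem t_fam' : P_fam := Run7.h648.TN.t_fam t_rel' t_abs'

theorem main3 (G : Type) [Group G] [Countable G] (hc : CostGtOne G)
    (M : Subgroup G) (hM : (M : Set G).Infinite)
    (hloc : ∀ K : Subgroup G, K ≤ M → K.FG → Group.ResiduallyFinite K ∨
      ∀ δ : ℝ, 0 < δ → ∃ (N : Subgroup K) (T : Finset K), N.FiniteIndex ∧
        Subgroup.closure (T : Set K) = N ∧ (T.card : ℝ) < 1 + δ * N.index)
    (h : M.Normal ∨ ∀ K : Subgroup G, M ≤ K → (∀ g, Tied K g → g ∈ K) → K = ⊤) :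
    Parad G 6 ∧ ((∃ u ∈ M, ¬ IsOfFinOrder u) → Parad G 5) ∧
    ((∀ g : G, IsOfFinOrder g) → ¬ Parad G 5) :=
  main3' t_fam' t_end G hc M hM (fun K hK hfg => (hloc K hK hfg).imp_right (fun h1 δ hδ hrg => by
    obtain ⟨N, T, hN, hT, hlt⟩ := h1 δ hδ
    have := hrg N hN T hT
    linarith)) h

end Pool.Agent.Run7.h968.TN
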