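import Pool.Agent.Run7.h968.TN.Main2

set_option autoImplicit false
set_option linter.unusedVariables false

open MeasureTheory

namespace Pool.Agent.Run7.h968.TN

open Pool.Agent.W336.CS Pool.Agent.Y111.RC Pool.Agent.Q191.TR Pool.Agent.W246.TN

/-- cost larger than one, as in the frozen statement -/
def CostGtOne (G : Type) [Group G] : Prop :=
  ∃ ε : ENNReal, 0 < ε ∧
      ∀ (X : Type) [MeasurableSpace X] [StandardBorelSpace X] [MulAction G X]
        (μ : Measure X) [IsProbabilityMeasure μ],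
        (∀ g : G, MeasurePreserving (fun x : X => g • x) μ μ) →
        (∀ g : G, g ≠ 1 → μ {x : X | g • x = x} = 0) →
        ∀ (s : ℕ → G) (A : ℕ → Set X), (∀ i, MeasurableSet (A i)) →
          (∀ᵐ x ∂μ, ∀ h : G, Relation.ReflTransGen
              (fun y z : X => ∃ i, (y ∈ A i ∧ z = s i • y) ∨ (z ∈ A i ∧ y = s i • z))
              x (h • x)) →
          1 + ε ≤ ∑' i, μ (A i)

theorem not_costLe {G : Type} [Group G] (h : CostGtOne G) :
    ∃ ε : ENNReal, 0 < ε ∧ ¬ CostLe G (1 + ε) := by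
  obtain ⟨ε, hε, h⟩ := h
  obtain ⟨d, hd0, hd1⟩ := exists_between hε
  refine ⟨d, hd0, ?_⟩
  rintro ⟨X, h1, h2, μ, h3, h4, h5, h6, A, s, h7, h8, h9⟩
  have hfree : ∀ g : G, g ≠ 1 → μ {x : X | g • x = x} = 0 := by
    intro g hg
    have : ∀ᵐ x ∂μ, ¬ (g • x = x) := by
      filter_upwards [h6] with x hx hgx
      exact hg (hx g hgx)
    simpa [ae_iff] using this
  have key := (h X μ h5 hfree s A h7 h8).trans h9
  exact absurd ((ENNReal.add_le_add_iff_left ENNReal.one_ne_top).1 key) (not_le.2 hd1)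

theorem main3' (hfam : P_fam) (hend : P_end) (G : Type) [Group G] [Countable G] (hc : CostGtOne G)
    (M : Subgroup G) (hM : (M : Set G).Infinite)
    (hloc : ∀ K : Subgroup G, K ≤ M → K.FG →
      Group.ResiduallyFinite K ∨ ∀ δ : ℝ, 0 < δ → ¬ RGpos K δ)
    (h : M.Normal ∨ ∀ K : Subgroup G, M ≤ K → (∀ g, Tied K g → g ∈ K) → K = ⊤) :
    Parad G 6 ∧ ((∃ u ∈ M, ¬ IsOfFinOrder u) → Parad G 5) ∧
    ((∀ g : G, IsOfFinOrder g) → ¬ Parad G 5) := by
  have htie : ∀ K : Subgroup G, M ≤ K → (∀ g, Tied K g → g ∈ K) → K = ⊤ := by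
    rcases h with h | h
    · exact ties_of_normal h hM
    · exact h
  obtain ⟨ε, hε, hcost⟩ := not_costLe hc
  refine ⟨parad6 hfam hend M hM hloc htie ε hε hcost, ?_, not_parad_five⟩
  rintro ⟨u, huM, hu⟩
  exact parad5 hfam hend M hloc htie ε hε hcost u huM hu

end Pool.Agent.Run7.h968.TN
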