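import Pool.Agent.Y111.RC.Core
import Pool.Agent.Q191.TR.Final

/-!
# Relative cost over locally residually finite subgroups of rank gradient zero

Interface. `G` countable of cost `> 1`, `M` an infinite subgroup all of whose finitely generated
subgroups are residually finite, `G` is the only subgroup which contains `M` and is closed under
ties. Then `G` has a paradoxical decomposition with six pieces.
-/

set_option autoImplicit false

open MeasureTheory

namespace Pool.Agent.Run7.h968.TN

open Pool.Agent.W336.CS Pool.Agent.Y111.RC Pool.Agent.Q191.TR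

/-- (A) co-induction of the finite `K`-set `K ⧸ K'`: a random map `y : G → K ⧸ K'` which is
equivariant on every right coset `K x`, with a `G`-invariant law (independent uniform points on the
right cosets `K x`). -/
def P_coind : Prop := ∀ (G : Type) [Group G] [Countable G] (K : Subgroup G) (K' : Subgroup K),
  K'.FiniteIndex →
  ∃ (Ω : Type) (_ : MeasurableSpace Ω) (P : Measure Ω) (_ : IsProbabilityMeasure P)
    (τ : G → Ω → Ω) (y : G → Ω → K ⧸ K'),
    (∀ h, MeasurePreserving (τ h) P P) ∧
    (∀ x z, MeasurableSet {w | y x w = z}) ∧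
    (∀ x h w, y x (τ h w) = y (x * h) w) ∧
    (∀ (s : K) x w, y (s * x) w = s • y x w) ∧
    (∀ z, P {w | y 1 w = z} = (K'.index : ENNReal)⁻¹)

/-- (B) A finitely generated subgroup `K'` of finite index of `K` connects `K` over an infinite
subgroup `H ≤ K` at density `|T| / [K : K'] + p`. -/
def P_rel : Prop := ∀ (G : Type) [Group G] [Countable G] (H K : Subgroup G), H ≤ K →
  (H : Set G).Infinite → ∀ (K' : Subgroup K) (T : Finset K), K'.FiniteIndex →
  Subgroup.closure (T : Set K) = K' → ∀ p : ENNReal, 0 < p →
  RC (H : Set G) (K : Set G) ((T.card : ENNReal) / (K'.index : ENNReal) + p)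

/-- (C) the absolute version -/
def P_abs : Prop := ∀ (G : Type) [Group G] [Countable G] (K : Subgroup G)
  (K' : Subgroup K) (T : Finset K), K'.FiniteIndex →
  Subgroup.closure (T : Set K) = K' →
  RC (∅ : Set G) (K : Set G) (1 + (T.card : ENNReal) / (K'.index : ENNReal))

/-- (D) (from `P_rel`, `P_abs`) if the finitely generated subgroups of `M` which contain `K₀` have
rank gradient zero then `M` has cost at most one in `G`. -/
def P_fam : Prop := ∀ (G : Type) [Group G] [Countable G] (M : Subgroup G) (K₀ : Finset G),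
  (K₀ : Set G) ⊆ M → (Subgroup.closure (K₀ : Set G) : Set G).Infinite →
  (∀ T : Finset G, K₀ ⊆ T → (T : Set G) ⊆ M → ∀ δ : ℝ, 0 < δ →
    ¬ RGpos (Subgroup.closure (T : Set G)) δ) →
  ∀ ε : ENNReal, 0 < ε → Fam (∅ : Set G) (M : Set G) (1 + ε)

/-- (E) closing up under ties -/
def P_end : Prop := ∀ (G : Type) [Group G] [Countable G] (M : Subgroup G),
  (∀ K : Subgroup G, M ≤ K → (∀ g, Tied K g → g ∈ K) → K = ⊤) →
  (∀ ε : ENNReal, 0 < ε → Fam (∅ : Set G) (M : Set G) (1 + ε)) →
  ∀ ε : ENNReal, 0 < ε → CostLe G (1 + ε)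

end Pool.Agent.Run7.h968.TN
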